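import Pool.Agent.Y792.PI.Split

/-!
# Every index above the classical bound is the primitivity index of a quantum channel

A primitive stochastic `D × D` matrix has index of primitivity at most `(D - 1) ^ 2 + 1`
(Wielandt). For quantum channels on the `D × D` matrices the primitivity indices larger than this
number are exactly the `D - 1` integers from `(D - 1) ^ 2 + 2` to `D ^ 2 - D + 1`, and there is no
gap among them.
-/

namespace Pool.Agent.Results.MP_8bfff4_mp.AllAboveClassical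

open Matrix
open scoped ComplexOrder

/-- The completely positive map `X ↦ ∑ i, A i X (A i)†` with Kraus operators `A i`. -/
noncomputable def krausMap {D d : ℕ} (A : Fin d → Matrix (Fin D) (Fin D) ℂ)
    (X : Matrix (Fin D) (Fin D) ℂ) : Matrix (Fin D) (Fin D) ℂ :=
  ∑ i, A i * X * (A i)ᴴ

/-- `T` is a quantum channel on the `D × D` complex matrices: it has a Kraus form with
`∑ i, (A i)† A i = 1`, for some number `d` of Kraus operators. -/
def IsChannel {D : ℕ} (T : Matrix (Fin D) (Fin D) ℂ → Matrix (Fin D) (Fin D) ℂ) : Prop :=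
  ∃ (d : ℕ) (A : Fin d → Matrix (Fin D) (Fin D) ℂ),
    ∑ i, (A i)ᴴ * A i = 1 ∧ T = krausMap A

/-- `T^n` maps every nonzero positive semidefinite matrix to one of full rank. -/
def FullRankAt {D : ℕ} (T : Matrix (Fin D) (Fin D) ℂ → Matrix (Fin D) (Fin D) ℂ) (n : ℕ) : Prop :=
  ∀ ρ : Matrix (Fin D) (Fin D) ℂ, ρ.PosSemidef → ρ ≠ 0 → (T^[n] ρ).rank = D

/-- `T` is a primitive quantum channel: it is a channel and for some `n` every nonzero
positive semidefinite `ρ` has `T^n ρ` of full rank `D`. -/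
def IsPrimitive {D : ℕ} (T : Matrix (Fin D) (Fin D) ℂ → Matrix (Fin D) (Fin D) ℂ) : Prop :=
  IsChannel T ∧ ∃ n, FullRankAt T n

/-- The primitivity index: the least `n` such that `T^n ρ` has full rank for every nonzero
positive semidefinite `ρ`. -/
noncomputable def primitivityIndex {D : ℕ}
    (T : Matrix (Fin D) (Fin D) ℂ → Matrix (Fin D) (Fin D) ℂ) : ℕ :=
  sInf {n | FullRankAt T n}

theorem krausMap_eq {D d : ℕ} (A : Fin d → Matrix (Fin D) (Fin D) ℂ) :
    krausMap A = Pool.Agent.Y792.PI.krausMap A := rfl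

theorem isChannel_iff {D : ℕ} (T : Matrix (Fin D) (Fin D) ℂ → Matrix (Fin D) (Fin D) ℂ) :
    IsChannel T ↔ Pool.Agent.Y792.PI.IsChannel T := Iff.rfl

theorem isPrimitive_iff {D : ℕ} (T : Matrix (Fin D) (Fin D) ℂ → Matrix (Fin D) (Fin D) ℂ) :
    IsPrimitive T ↔ Pool.Agent.Y792.PI.IsPrimitive T := Iff.rfl

theorem primitivityIndex_eq {D : ℕ} (T : Matrix (Fin D) (Fin D) ℂ → Matrix (Fin D) (Fin D) ℂ) :
    primitivityIndex T = Pool.Agent.Y792.PI.primitivityIndex T := rfl

/-- For every `D ≥ 2`: every primitive quantum channel on the `D × D` matrices has primitivity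
index at most `D ^ 2 - D + 1`, and every integer `m` with
`(D - 1) ^ 2 + 1 < m ≤ D ^ 2 - D + 1` is the primitivity index of some primitive channel. Hence,
for `m` above the classical (Wielandt) bound `(D - 1) ^ 2 + 1`, some primitive channel has
primitivity index `m` if and only if `m ≤ D ^ 2 - D + 1`. -/
theorem result (D : ℕ) (hD : 2 ≤ D) :
    (∀ T : Matrix (Fin D) (Fin D) ℂ → Matrix (Fin D) (Fin D) ℂ,
      IsPrimitive T → primitivityIndex T ≤ D ^ 2 - D + 1) ∧
    (∀ m : ℕ, (D - 1) ^ 2 + 1 < m →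
      ((∃ T : Matrix (Fin D) (Fin D) ℂ → Matrix (Fin D) (Fin D) ℂ,
        IsPrimitive T ∧ primitivityIndex T = m) ↔ m ≤ D ^ 2 - D + 1)) := by
  have hup : ∀ T : Matrix (Fin D) (Fin D) ℂ → Matrix (Fin D) (Fin D) ℂ,
      IsPrimitive T → primitivityIndex T ≤ D ^ 2 - D + 1 := by
    intro T hT
    rw [pow_two]
    exact Pool.Agent.Y792.PI.index_le hD hT
  refine ⟨hup, fun m hm => ⟨?_, ?_⟩⟩
  · rintro ⟨T, hT, rfl⟩
    exact hup T hT
  · intro hm2
    obtain ⟨k, rfl⟩ : ∃ k, D = k + 2 := ⟨D - 2, by omega⟩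
    have e1 : (k + 2 - 1) ^ 2 = (k+1)*(k+1) := by
      rw [show k + 2 - 1 = k + 1 by omega, pow_two]
    have e2 : (k + 2) ^ 2 = (k+1)*(k+1) + (k + 2) + (k + 1) := by ring
    rw [e1] at hm
    rw [e2] at hm2
    obtain ⟨a, ha⟩ : ∃ a, m = (k+1)*(k+1) + a := ⟨m - (k+1)*(k+1), by omega⟩
    subst ha
    obtain ⟨h1, h2⟩ := Pool.Agent.Y792.PI.Split.index_T k a (by omega) (by omega)
    exact ⟨_, h1, h2⟩

end Pool.Agent.Results.MP_8bfff4_mp.AllAboveClassical
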